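import Mathlib
import Pool.Agent.R194.HC.Final

namespace Pool.Agent.Results.MP_48c8f3_co.HalfCube

/-- Families of half size: the statement of the problem holds, and even
`|F Δ G| * |∂F| ≤ 2 ^ n * (|∂F| - |∂L|)`. -/
theorem result :
    ∀ n : ℕ, ∀ F L : Finset (Finset (Fin n)),
      2 * F.card = 2 ^ n →
      L.card = F.card →
      (∀ x ∈ L, ∀ y ∉ L, ∃ i ∈ x, i ∉ y ∧ ∀ j < i, (j ∈ x ↔ j ∈ y)) →
      ∃ σ : Equiv.Perm (Fin n), ∃ S : Finset (Fin n),
        (((symmDiff F (L.image (fun x => symmDiff (x.map σ.toEmbedding) S))).card : ℤ) *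
            (((F ×ˢ (Finset.univ : Finset (Fin n))).filter
                  (fun p => symmDiff p.1 {p.2} ∉ F)).card : ℤ) ≤
          2 ^ n * ((((F ×ˢ (Finset.univ : Finset (Fin n))).filter
                  (fun p => symmDiff p.1 {p.2} ∉ F)).card : ℤ) -
               (((L ×ˢ (Finset.univ : Finset (Fin n))).filter
                  (fun p => symmDiff p.1 {p.2} ∉ L)).card : ℤ))) ∧
        (((symmDiff F (L.image (fun x => symmDiff (x.map σ.toEmbedding) S))).card : ℤ) ≤
          2 * ((((F ×ˢ (Finset.univ : Finset (Fin n))).filter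
                  (fun p => symmDiff p.1 {p.2} ∉ F)).card : ℤ) -
               (((L ×ˢ (Finset.univ : Finset (Fin n))).filter
                  (fun p => symmDiff p.1 {p.2} ∉ L)).card : ℤ))) :=
  fun n F L hF hcard hL => Pool.Agent.R194.HC.half_case n F L hF hcard hL

end Pool.Agent.Results.MP_48c8f3_co.HalfCube
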